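import Mathlib

set_option autoImplicit false

/-! # The sign of a polynomial at points which tend to infinity one coordinate after the other -/

namespace Pool.Agent.K4H88.Ter

open Filter

/-- `v 0` tends to infinity much faster than `v 1`, and so on -/
def Lf : (n : ℕ) → Filter (Fin n → ℝ)
  | 0 => ⊤
  | n + 1 => map (fun a : (Fin n → ℝ) × ℝ => (Fin.cons a.2 a.1 : Fin (n + 1) → ℝ))
      ((Lf n).curry atTop)

theorem ev_succ {n : ℕ} {R : (Fin (n + 1) → ℝ) → Prop} :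
    (∀ᶠ v in Lf (n + 1), R v) ↔ ∀ᶠ w in Lf n, ∀ᶠ t : ℝ in atTop, R (Fin.cons t w) := Iff.rfl

theorem ev_zero {R : (Fin 0 → ℝ) → Prop} : (∀ᶠ v in Lf 0, R v) ↔ R ![] := by
  show (∀ᶠ v in (⊤ : Filter (Fin 0 → ℝ)), R v) ↔ R ![]
  rw [eventually_top]
  constructor
  · intro h; exact h _
  · intro h x
    have : x = ![] := Subsingleton.elim _ _
    rw [this]; exact h

theorem ev_four {R : ℝ → ℝ → ℝ → ℝ → Prop} :
    (∀ᶠ v in Lf 4, R (v 0) (v 1) (v 2) (v 3)) ↔
      ∀ᶠ ε : ℝ in atTop, ∀ᶠ δ : ℝ in atTop, ∀ᶠ β : ℝ in atTop, ∀ᶠ α : ℝ in atTop, R α β δ ε := by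
  rw [ev_succ, ev_succ, ev_succ, ev_succ, ev_zero]
  rfl

/-- one variable -/
theorem sign_one (P : Polynomial ℝ) (h : P ≠ 0) :
    ∀ᶠ t : ℝ in atTop, SignType.sign (P.eval t) = SignType.sign P.leadingCoeff := by
  have key : ∀ Q : Polynomial ℝ, 0 < Q.leadingCoeff → ∀ᶠ t : ℝ in atTop, 0 < Q.eval t := by
    intro Q hQ
    by_cases hd : 0 < Q.degree
    · exact (Q.tendsto_atTop_of_leadingCoeff_nonneg hd hQ.le).eventually_gt_atTop 0
    · have hQ0 : Q = Polynomial.C (Q.coeff 0) := Polynomial.eq_C_of_degree_le_zero (not_lt.1 hd)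
      rw [hQ0] at hQ ⊢
      rw [Polynomial.leadingCoeff_C] at hQ
      simp [hQ]
  have hl : P.leadingCoeff ≠ 0 := Polynomial.leadingCoeff_ne_zero.2 h
  rcases lt_or_gt_of_ne hl with h1 | h1
  · have h2 := key (-P) (by rw [Polynomial.leadingCoeff_neg]; linarith)
    filter_upwards [h2] with t ht
    rw [Polynomial.eval_neg] at ht
    rw [sign_neg (by linarith), sign_neg h1]
  · filter_upwards [key P h1] with t ht
    rw [sign_pos ht, sign_pos h1]

/-- the sign is eventually constant -/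
theorem sign_ev : ∀ (n : ℕ) (Q : MvPolynomial (Fin n) ℝ), ∃ s : SignType, (Q ≠ 0 → s ≠ 0) ∧
    ∀ᶠ v in Lf n, SignType.sign (MvPolynomial.eval v Q) = s
  | 0, Q => by
    refine ⟨SignType.sign (MvPolynomial.eval ![] Q), fun hQ => ?_, ?_⟩
    · rw [Ne, sign_eq_zero_iff]
      intro h
      apply hQ
      rw [MvPolynomial.eq_C_of_isEmpty Q] at h ⊢
      rw [MvPolynomial.eval_C] at h
      rw [h, map_zero]
    · rw [ev_zero]
  | n + 1, Q => by
    by_cases hQ : Q = 0
    · refine ⟨0, fun h => absurd hQ h, ?_⟩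
      rw [hQ]
      simp
    obtain ⟨q, hq⟩ : ∃ q, q = MvPolynomial.finSuccEquiv ℝ n Q := ⟨_, rfl⟩
    have hq0 : q ≠ 0 := by
      rw [hq]
      simpa using hQ
    have hl : q.leadingCoeff ≠ 0 := Polynomial.leadingCoeff_ne_zero.2 hq0
    obtain ⟨s, hs, hs2⟩ := sign_ev n q.leadingCoeff
    refine ⟨s, fun _ => hs hl, ?_⟩
    rw [ev_succ]
    filter_upwards [hs2] with w hw
    have hw0 : MvPolynomial.eval w q.leadingCoeff ≠ 0 := by
      intro h0
      rw [h0, sign_zero] at hw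
      exact hs hl hw.symm
    have hlc : (Polynomial.map (MvPolynomial.eval w) q).leadingCoeff =
        MvPolynomial.eval w q.leadingCoeff :=
      Polynomial.leadingCoeff_map_of_leadingCoeff_ne_zero _ hw0
    have hne : Polynomial.map (MvPolynomial.eval w) q ≠ 0 := by
      rw [← Polynomial.leadingCoeff_ne_zero, hlc]
      exact hw0
    filter_upwards [sign_one _ hne] with t ht
    rw [hlc, hw] at ht
    rw [MvPolynomial.eval_eq_eval_mv_eval', ← hq]
    exact ht

/-- four integral parameters, `ε ≪ δ ≪ β ≪ α` -/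
def L : Filter (ℕ × ℕ × ℕ × ℕ) := atTop.curry (atTop.curry (atTop.curry atTop))

theorem ev_L {R : ℕ × ℕ × ℕ × ℕ → Prop} : (∀ᶠ a in L, R a) ↔
    ∀ᶠ ε : ℕ in atTop, ∀ᶠ δ : ℕ in atTop, ∀ᶠ β : ℕ in atTop, ∀ᶠ α : ℕ in atTop,
      R (ε, δ, β, α) := Iff.rfl

theorem L_exists {R : ℕ × ℕ × ℕ × ℕ → Prop} (h : ∀ᶠ a in L, R a) : ∃ a, R a := by
  rw [ev_L] at h
  obtain ⟨ε, h⟩ := h.exists
  obtain ⟨δ, h⟩ := h.exists
  obtain ⟨β, h⟩ := h.exists
  obtain ⟨α, h⟩ := h.exists
  exact ⟨_, h⟩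

/-- multiples of `N` -/
def sc (N : ℕ) (a : ℕ × ℕ × ℕ × ℕ) : ℕ × ℕ × ℕ × ℕ := (N * a.1, N * a.2.1, N * a.2.2.1, N * a.2.2.2)

/-- multiples of a positive number -/
theorem L_scale (N : ℕ) (hN : 0 < N) {R : ℕ × ℕ × ℕ × ℕ → Prop} (h : ∀ᶠ a in L, R a) :
    ∀ᶠ a in L, R (sc N a) := by
  rw [ev_L] at h ⊢
  have t : Tendsto (fun m : ℕ => N * m) atTop atTop := tendsto_id.const_mul_atTop' hN
  filter_upwards [t.eventually h] with ε h1
  filter_upwards [t.eventually h1] with δ h2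
  filter_upwards [t.eventually h2] with β h3
  filter_upwards [t.eventually h3] with α h4
  exact h4

/-- the same with shifted parameters -/
theorem shift {R : ℝ → ℝ → ℝ → ℝ → Prop} (h : ∀ᶠ v in Lf 4, R (v 0) (v 1) (v 2) (v 3))
    (c : Fin 3 → ℝ) (l : ℝ) (hl : 0 < l) :
    ∀ᶠ a in L, R (a.2.2.2 + c 0 * a.1) (a.2.2.1 + c 1 * a.1) (a.2.1 + c 2 * a.1) (l * a.1) := by
  rw [ev_four] at h
  rw [ev_L]
  have t0 : Tendsto (fun ε : ℕ => l * (ε : ℝ)) atTop atTop :=
    tendsto_natCast_atTop_atTop.const_mul_atTop hl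
  filter_upwards [t0.eventually h] with ε h1
  have t : ∀ c : ℝ, Tendsto (fun m : ℕ => (m : ℝ) + c) atTop atTop := fun c =>
    tendsto_atTop_add_const_right _ _ tendsto_natCast_atTop_atTop
  filter_upwards [(t (c 2 * ε)).eventually h1] with δ h2
  filter_upwards [(t (c 1 * ε)).eventually h2] with β h3
  filter_upwards [(t (c 0 * ε)).eventually h3] with α h4
  exact h4

/-- linear forms do not vanish -/
theorem lin (c₁ c₂ c₃ c₄ : ℤ) (h : ¬ (c₁ = 0 ∧ c₂ = 0 ∧ c₃ = 0 ∧ c₄ = 0)) :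
    ∀ᶠ a in L, c₁ * (a.2.2.2 : ℤ) + c₂ * (a.2.2.1 : ℤ) + c₃ * (a.2.1 : ℤ) + c₄ * (a.1 : ℤ) ≠ 0 := by
  have key : ∀ c K : ℤ, c ≠ 0 → ∀ᶠ m : ℕ in atTop, c * (m : ℤ) + K ≠ 0 := by
    intro c K hc
    filter_upwards [eventually_gt_atTop K.natAbs] with m hm h0
    have h1 : c * (m : ℤ) = -K := by linarith
    have h2 : (c * (m : ℤ)).natAbs = K.natAbs := by rw [h1, Int.natAbs_neg]
    rw [Int.natAbs_mul, Int.natAbs_natCast] at h2
    have h3 : 1 ≤ c.natAbs := Int.natAbs_pos.2 hc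
    nlinarith
  rw [ev_L]
  by_cases h1 : c₁ = 0
  · by_cases h2 : c₂ = 0
    · by_cases h3 : c₃ = 0
      · have h4 : c₄ ≠ 0 := fun h4 => h ⟨h1, h2, h3, h4⟩
        filter_upwards [key c₄ 0 h4] with ε hε
        refine Eventually.of_forall fun δ => Eventually.of_forall fun β =>
          Eventually.of_forall fun α => ?_
        simp only [h1, h2, h3]
        intro h5
        apply hε
        linarith
      · refine Eventually.of_forall fun ε => ?_
        filter_upwards [key c₃ (c₄ * ε) h3] with δ hδ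
        refine Eventually.of_forall fun β => Eventually.of_forall fun α => ?_
        simp only [h1, h2]
        intro h5
        apply hδ
        linarith
    · refine Eventually.of_forall fun ε => Eventually.of_forall fun δ => ?_
      filter_upwards [key c₂ (c₃ * δ + c₄ * ε) h2] with β hβ
      refine Eventually.of_forall fun α => ?_
      simp only [h1]
      intro h5
      apply hβ
      linarith
  · refine Eventually.of_forall fun ε => Eventually.of_forall fun δ =>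
      Eventually.of_forall fun β => ?_
    filter_upwards [key c₁ (c₂ * β + c₃ * δ + c₄ * ε) h1] with α hα
    intro h5
    apply hα
    linarith

end Pool.Agent.K4H88.Ter
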