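import Pool.Agent.K4H88.Ter.Defs
import Pool.Agent.K4H88.Ter.Sign

set_option autoImplicit false

/-! # The hard inputs -/

namespace Pool.Agent.K4H88.Ter

open Filter Finset

variable {n m : ℕ}

/-- the kind of a place: the first `m` places, the next `m` places, and the others -/
def kd (m : ℕ) (u : Fin n) : Fin 3 := if u.1 < m then 0 else if u.1 < 2 * m then 1 else 2

/-- the index among the places of this kind -/
def ix (m : ℕ) (u : Fin n) : ℤ :=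
  if u.1 < m then (u.1 : ℤ) else if u.1 < 2 * m then (u.1 : ℤ) - m else (u.1 : ℤ) - 2 * m

/-- the coefficients of the large parameters -/
def va (k : Fin 3) : ℤ := ![1, 0, 1] k
def vb (k : Fin 3) : ℤ := ![0, 1, 1] k

/-- the coefficient of the small parameter in the input without solution -/
def e0 (k : Fin 3) (i : ℤ) : ℤ := ![4 * i ^ 2, 4 * i ^ 2, i ^ 2 - 1] k

/-- the coefficient of the small parameter in the input with the solution `(i₀, j₀)` -/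
def e1 (i₀ j₀ : ℤ) (k : Fin 3) (i : ℤ) : ℤ :=
  ![4 * (i - i₀) ^ 2, 4 * (i - j₀) ^ 2, (i - i₀ - j₀) ^ 2] k

/-- the input -/
def inp (m : ℕ) (e : Fin 3 → ℤ → ℤ) (a : ℕ × ℕ × ℕ × ℕ) (u : Fin n) : ℤ :=
  va (kd m u) * a.2.2.2 + vb (kd m u) * a.2.2.1 + ix m u * a.2.1 + e (kd m u) (ix m u) * a.1

theorem kd_ix_inj {u v : Fin n} (h1 : kd m u = kd m v) (h2 : ix m u = ix m v) : u = v := by
  unfold kd at h1
  unfold ix at h2
  apply Fin.ext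
  split_ifs at h1 h2 <;> omega

/-- the input `e1` at this place is obtained by a change of the parameters -/
def Fits (i₀ j₀ : ℤ) (l : ℝ) (c : Fin 3 → ℝ) (k : Fin 3) (i : ℤ) : Prop :=
  (e1 i₀ j₀ k i : ℝ) = l * e0 k i + va k * c 0 + vb k * c 1 + i * c 2

theorem fits_pure (i₀ j₀ : ℤ) (k k' : Fin 3) (i' : ℤ) :
    ∃ c : Fin 3 → ℝ, (∀ i, Fits i₀ j₀ 1 c k i) ∧ Fits i₀ j₀ 1 c k' i' := by
  fin_cases k
  · fin_cases k'
    · refine ⟨![4 * i₀ ^ 2, 0, -8 * i₀], fun i => ?_, ?_⟩ <;>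
        simp [Fits, e1, e0, va, vb] <;> ring
    · refine ⟨![4 * i₀ ^ 2, (e1 i₀ j₀ 1 i' : ℝ) - e0 1 i' - i' * (-8 * i₀), -8 * i₀],
        fun i => ?_, ?_⟩ <;> simp [Fits, e1, e0, va, vb] <;> ring
    · refine ⟨![4 * i₀ ^ 2, (e1 i₀ j₀ 2 i' : ℝ) - e0 2 i' - 4 * i₀ ^ 2 - i' * (-8 * i₀), -8 * i₀],
        fun i => ?_, ?_⟩ <;> simp [Fits, e1, e0, va, vb] <;> ring
  · fin_cases k'
    · refine ⟨![(e1 i₀ j₀ 0 i' : ℝ) - e0 0 i' - i' * (-8 * j₀), 4 * j₀ ^ 2, -8 * j₀],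
        fun i => ?_, ?_⟩ <;> simp [Fits, e1, e0, va, vb] <;> ring
    · refine ⟨![0, 4 * j₀ ^ 2, -8 * j₀], fun i => ?_, ?_⟩ <;>
        simp [Fits, e1, e0, va, vb] <;> ring
    · refine ⟨![(e1 i₀ j₀ 2 i' : ℝ) - e0 2 i' - 4 * j₀ ^ 2 - i' * (-8 * j₀), 4 * j₀ ^ 2, -8 * j₀],
        fun i => ?_, ?_⟩ <;> simp [Fits, e1, e0, va, vb] <;> ring
  · obtain ⟨s, hs⟩ : ∃ s : ℝ, s = (i₀ + j₀) ^ 2 + 1 := ⟨_, rfl⟩
    obtain ⟨t, ht⟩ : ∃ t : ℝ, t = -2 * (i₀ + j₀) := ⟨_, rfl⟩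
    fin_cases k'
    · refine ⟨![(e1 i₀ j₀ 0 i' : ℝ) - e0 0 i' - i' * t, s - ((e1 i₀ j₀ 0 i' : ℝ) - e0 0 i' - i' * t), t],
        fun i => ?_, ?_⟩ <;> simp [Fits, e1, e0, va, vb, hs, ht] <;> ring
    · refine ⟨![s - ((e1 i₀ j₀ 1 i' : ℝ) - e0 1 i' - i' * t), (e1 i₀ j₀ 1 i' : ℝ) - e0 1 i' - i' * t, t],
        fun i => ?_, ?_⟩ <;> simp [Fits, e1, e0, va, vb, hs, ht] <;> ring
    · refine ⟨![s, 0, t], fun i => ?_, ?_⟩ <;>
        simp [Fits, e1, e0, va, vb, hs, ht] <;> ring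

theorem fits_abc (i₀ j₀ i j k : ℤ) (h : ¬ (i = i₀ ∧ j = j₀ ∧ k = i₀ + j₀)) :
    ∃ (l : ℝ) (c : Fin 3 → ℝ), 0 < l ∧ Fits i₀ j₀ l c 0 i ∧ Fits i₀ j₀ l c 1 j ∧
      Fits i₀ j₀ l c 2 k := by
  by_cases hk : k = i + j
  · obtain ⟨q, hq⟩ : ∃ q : ℤ, q = 4 * i ^ 2 + 4 * j ^ 2 - (k ^ 2 - 1) := ⟨_, rfl⟩
    obtain ⟨q', hq'⟩ : ∃ q' : ℤ, q' = 4 * (i - i₀) ^ 2 + 4 * (j - j₀) ^ 2 - (k - i₀ - j₀) ^ 2 :=
      ⟨_, rfl⟩
    have hqpos : 0 < q := by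
      rw [hq, hk]
      nlinarith [sq_nonneg (i - j), sq_nonneg (i + j), sq_nonneg i, sq_nonneg j]
    have hq'pos : 0 < q' := by
      have h1 : (i - i₀) ≠ 0 ∨ (j - j₀) ≠ 0 := by
        by_contra h2
        push Not at h2
        exact h ⟨by linarith [h2.1], by linarith [h2.2], by rw [hk]; linarith [h2.1, h2.2]⟩
      have h2 : q' = 2 * ((i - i₀) ^ 2 + (j - j₀) ^ 2) + ((i - i₀) - (j - j₀)) ^ 2 := by
        rw [hq', hk]
        ring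
      have h3 : 0 < (i - i₀) ^ 2 + (j - j₀) ^ 2 := by
        rcases h1 with h1 | h1
        · have := sq_pos_of_ne_zero h1
          nlinarith [sq_nonneg (j - j₀)]
        · have := sq_pos_of_ne_zero h1
          nlinarith [sq_nonneg (i - i₀)]
      rw [h2]
      nlinarith [sq_nonneg ((i - i₀) - (j - j₀))]
    have hqr : (0 : ℝ) < q := by exact_mod_cast hqpos
    have hq'r : (0 : ℝ) < q' := by exact_mod_cast hq'pos
    obtain ⟨l, hl⟩ : ∃ l : ℝ, l = q' / q := ⟨_, rfl⟩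
    have hl2 : l * q = q' := by rw [hl]; field_simp
    refine ⟨l, ![(e1 i₀ j₀ 0 i : ℝ) - l * e0 0 i, (e1 i₀ j₀ 1 j : ℝ) - l * e0 1 j, 0],
      by rw [hl]; positivity, ?_, ?_, ?_⟩
    · simp [Fits, va, vb]
    · simp [Fits, va, vb]
    · have e3 : (q : ℝ) = e0 0 i + e0 1 j - e0 2 k := by
        rw [hq]; simp [e0]
      have e4 : (q' : ℝ) = e1 i₀ j₀ 0 i + e1 i₀ j₀ 1 j - e1 i₀ j₀ 2 k := by
        rw [hq']; simp [e1]
      rw [e3, e4] at hl2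
      have : Fits i₀ j₀ l ![(e1 i₀ j₀ 0 i : ℝ) - l * e0 0 i, (e1 i₀ j₀ 1 j : ℝ) - l * e0 1 j, 0] 2 k ↔
          (e1 i₀ j₀ 2 k : ℝ) = l * e0 2 k + ((e1 i₀ j₀ 0 i : ℝ) - l * e0 0 i) +
            ((e1 i₀ j₀ 1 j : ℝ) - l * e0 1 j) := by
        simp [Fits, va, vb]
      rw [this]
      linarith
  · have hk' : (k : ℝ) - i - j ≠ 0 := by
      intro h1
      apply hk
      have : (k : ℝ) = ((i + j : ℤ) : ℝ) := by push_cast; linarith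
      exact_mod_cast this
    obtain ⟨dA, hA⟩ : ∃ dA : ℝ, dA = (e1 i₀ j₀ 0 i : ℝ) - e0 0 i := ⟨_, rfl⟩
    obtain ⟨dB, hB⟩ : ∃ dB : ℝ, dB = (e1 i₀ j₀ 1 j : ℝ) - e0 1 j := ⟨_, rfl⟩
    obtain ⟨dC, hC⟩ : ∃ dC : ℝ, dC = (e1 i₀ j₀ 2 k : ℝ) - e0 2 k := ⟨_, rfl⟩
    obtain ⟨t, ht⟩ : ∃ t : ℝ, t = (dC - dA - dB) / (k - i - j) := ⟨_, rfl⟩
    have ht2 : t * (k - i - j) = dC - dA - dB := by rw [ht]; field_simp
    refine ⟨1, ![dA - i * t, dB - j * t, t], one_pos, ?_, ?_, ?_⟩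
    · have : Fits i₀ j₀ 1 ![dA - i * t, dB - j * t, t] 0 i ↔
          (e1 i₀ j₀ 0 i : ℝ) = e0 0 i + (dA - i * t) + i * t := by
        simp [Fits, va, vb]
      rw [this, hA]; ring
    · have : Fits i₀ j₀ 1 ![dA - i * t, dB - j * t, t] 1 j ↔
          (e1 i₀ j₀ 1 j : ℝ) = e0 1 j + (dB - j * t) + j * t := by
        simp [Fits, va, vb]
      rw [this, hB]; ring
    · have : Fits i₀ j₀ 1 ![dA - i * t, dB - j * t, t] 2 k ↔
          (e1 i₀ j₀ 2 k : ℝ) = e0 2 k + (dA - i * t) + (dB - j * t) + k * t := by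
        simp [Fits, va, vb]
      rw [this]
      have : (dA - i * t) + (dB - j * t) + k * t = dC := by linarith
      rw [hC] at this
      linarith

end Pool.Agent.K4H88.Ter
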