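import Mathlib

set_option autoImplicit false

/-! # Decision trees whose tests look at three numbers of the input -/

namespace Pool.Agent.K4H88.Ter

open Finset

/-- Decision trees for lists of `n` integers (of any size).

* An inner node `test p r P child` looks at the three numbers at the places `p 0`, `p 1`, `p 2`
  (they may coincide), and it branches according to the signs of the values of finitely many
  polynomials `P j` with real coefficients, in three variables, at these three numbers.
* An inner node `residues M child` branches according to the residues of all the `n` numbers modulo
  `M + 1`. -/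
inductive Tree (n : ℕ) : Type
  | leaf : Bool → Tree n
  | test : (p : Fin 3 → Fin n) → (r : ℕ) → (P : Fin r → MvPolynomial (Fin 3) ℝ) →
      (child : (Fin r → SignType) → Tree n) → Tree n
  | residues : (M : ℕ) → (child : (Fin n → ZMod (M + 1)) → Tree n) → Tree n

/-- The signs which are seen at a node `test p r P child`. -/
noncomputable def signs {n r : ℕ} (p : Fin 3 → Fin n) (P : Fin r → MvPolynomial (Fin 3) ℝ)
    (x : Fin n → ℤ) : Fin r → SignType :=
  fun j => SignType.sign (MvPolynomial.eval (fun k => (x (p k) : ℝ)) (P j))

namespace Tree

variable {n : ℕ}

/-- The answer of the tree. -/
noncomputable def eval : Tree n → (Fin n → ℤ) → Bool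
  | leaf b, _ => b
  | test p _ P child, x => (child (signs p P x)).eval x
  | residues _ child, x => (child (fun u => (x u : ZMod _))).eval x

/-- The sets of three different places which are looked at together by one of the tests of the
computation for the input `x`. -/
noncomputable def triples : Tree n → (Fin n → ℤ) → Finset (Finset (Fin n))
  | leaf _, _ => ∅
  | test p _ P child, x =>
      if (univ.image p).card = 3 then insert (univ.image p) ((child (signs p P x)).triples x)
      else (child (signs p P x)).triples x
  | residues _ child, x => (child (fun u => (x u : ZMod _))).triples x

end Tree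

/-- The `i`-th number plus the `j`-th number is the `k`-th number (three different places). -/
def IsSol {n : ℕ} (x : Fin n → ℤ) (i j k : Fin n) : Prop :=
  i ≠ j ∧ i ≠ k ∧ j ≠ k ∧ x i + x j = x k

/-- One of the numbers is the sum of two others. -/
def HasSum3 {n : ℕ} (x : Fin n → ℤ) : Prop := ∃ i j k : Fin n, IsSol x i j k

/-- There is at most one solution, up to exchanging the two summands. -/
def AtMostOne {n : ℕ} (x : Fin n → ℤ) : Prop :=
  ∀ i j k i' j' k' : Fin n, IsSol x i j k → IsSol x i' j' k' →
    k = k' ∧ ((i = i' ∧ j = j') ∨ (i = j' ∧ j = i'))

end Pool.Agent.K4H88.Ter
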