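import Pool.Agent.K4H88.Ter.Config

set_option autoImplicit false

/-! # Three numbers at a time: quadratically many tests are needed -/

namespace Pool.Agent.K4H88.Ter

open Filter Finset

variable {n m : ℕ}

theorem pos_lt (h : 4 * m ≤ n + 1) (i j : Fin m) : i.1 < n ∧ m + j.1 < n ∧
    2 * m + (i.1 + j.1) < n := by
  have := i.2
  have := j.2
  omega

/-- the places of the solution -/
def posA (h : 4 * m ≤ n + 1) (τ : Fin m × Fin m) : Fin n := ⟨τ.1, (pos_lt h τ.1 τ.2).1⟩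
def posB (h : 4 * m ≤ n + 1) (τ : Fin m × Fin m) : Fin n := ⟨m + τ.2, (pos_lt h τ.1 τ.2).2.1⟩
def posC (h : 4 * m ≤ n + 1) (τ : Fin m × Fin m) : Fin n :=
  ⟨2 * m + (τ.1 + τ.2), (pos_lt h τ.1 τ.2).2.2⟩

def target (h : 4 * m ≤ n + 1) (τ : Fin m × Fin m) : Finset (Fin n) :=
  {posA h τ, posB h τ, posC h τ}

theorem kdA (h : 4 * m ≤ n + 1) (τ : Fin m × Fin m) : kd m (posA h τ) = 0 ∧
    ix m (posA h τ) = τ.1 := by
  have := τ.1.2
  simp [kd, ix, posA]

theorem kdB (h : 4 * m ≤ n + 1) (τ : Fin m × Fin m) : kd m (posB h τ) = 1 ∧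
    ix m (posB h τ) = τ.2 := by
  have := τ.2.2
  have h1 : ¬ m + (τ.2 : ℕ) < m := by omega
  have h2 : m + (τ.2 : ℕ) < 2 * m := by omega
  simp [kd, ix, posB, h1, h2]

theorem kdC (h : 4 * m ≤ n + 1) (τ : Fin m × Fin m) : kd m (posC h τ) = 2 ∧
    ix m (posC h τ) = τ.1 + τ.2 := by
  have h1 : ¬ 2 * m + ((τ.1 : ℕ) + τ.2) < m := by omega
  have h2 : ¬ 2 * m + ((τ.1 : ℕ) + τ.2) < 2 * m := by omega
  simp [kd, ix, posC, h1, h2]

theorem target_inj (h : 4 * m ≤ n + 1) : Function.Injective (target (n := n) h) := by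
  intro τ τ' he
  have h1 : posA h τ ∈ target h τ' := by rw [← he]; simp [target]
  have h2 : posB h τ ∈ target h τ' := by rw [← he]; simp [target]
  simp only [target, mem_insert, mem_singleton] at h1 h2
  have hA := kdA h τ
  have hB := kdB h τ
  have hA' := kdA h τ'
  have hB' := kdB h τ'
  have hC' := kdC h τ'
  have e1 : posA h τ = posA h τ' := by
    rcases h1 with h1 | h1 | h1
    · exact h1
    · rw [h1, hB'.1] at hA; exact absurd hA.1 (by decide)
    · rw [h1, hC'.1] at hA; exact absurd hA.1 (by decide)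
  have e2 : posB h τ = posB h τ' := by
    rcases h2 with h2 | h2 | h2
    · rw [h2, hA'.1] at hB; exact absurd hB.1 (by decide)
    · exact h2
    · rw [h2, hC'.1] at hB; exact absurd hB.1 (by decide)
  apply Prod.ext
  · apply Fin.ext
    have := congrArg Fin.val e1
    simpa [posA] using this
  · apply Fin.ext
    have := congrArg Fin.val e2
    simpa [posB] using this

theorem third : ∀ k k' : Fin 3, k ≠ k' → ∃ w : Fin 3, ∀ x : Fin 3, x = k ∨ x = k' ∨ x = w := by
  decide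

theorem fits_all (h : 4 * m ≤ n + 1) (τ : Fin m × Fin m) (p : Fin 3 → Fin n)
    (hp : univ.image p ≠ target h τ) :
    ∃ (l : ℝ) (c : Fin 3 → ℝ), 0 < l ∧
      ∀ k, Fits (τ.1 : ℕ) (τ.2 : ℕ) l c (kd m (p k)) (ix m (p k)) := by
  by_cases hi : ∃ k k' : Fin 3, k ≠ k' ∧ kd m (p k) = kd m (p k')
  · obtain ⟨k, k', hk, hkk⟩ := hi
    obtain ⟨w, hw⟩ := third k k' hk
    obtain ⟨c, hc1, hc2⟩ := fits_pure (τ.1 : ℕ) (τ.2 : ℕ) (kd m (p k)) (kd m (p w)) (ix m (p w))
    refine ⟨1, c, one_pos, fun x => ?_⟩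
    rcases hw x with rfl | rfl | rfl
    · exact hc1 _
    · rw [← hkk]; exact hc1 _
    · exact hc2
  · push Not at hi
    have hinj : Function.Injective (fun k : Fin 3 => kd m (p k)) := by
      intro k k' hk
      by_contra hne
      exact hi k k' hne hk
    have hsurj := Finite.injective_iff_surjective.1 hinj
    obtain ⟨kA, hkA⟩ := hsurj 0
    obtain ⟨kB, hkB⟩ := hsurj 1
    obtain ⟨kC, hkC⟩ := hsurj 2
    simp only at hkA hkB hkC
    have hall : ∀ k, k = kA ∨ k = kB ∨ k = kC := by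
      intro k
      have h3 : ∀ x : Fin 3, x = 0 ∨ x = 1 ∨ x = 2 := by decide
      rcases h3 (kd m (p k)) with h4 | h4 | h4
      · exact Or.inl (hinj (by simp only; rw [h4, hkA]))
      · exact Or.inr (Or.inl (hinj (by simp only; rw [h4, hkB])))
      · exact Or.inr (Or.inr (hinj (by simp only; rw [h4, hkC])))
    obtain ⟨l, c, hl, h1, h2, h3⟩ := fits_abc (τ.1 : ℕ) (τ.2 : ℕ) (ix m (p kA)) (ix m (p kB))
      (ix m (p kC)) (by
        rintro ⟨e1, e2, e3⟩
        apply hp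
        have eA : p kA = posA h τ := kd_ix_inj (m := m) (by rw [hkA, (kdA h τ).1])
          (by rw [e1, (kdA h τ).2])
        have eB : p kB = posB h τ := kd_ix_inj (m := m) (by rw [hkB, (kdB h τ).1])
          (by rw [e2, (kdB h τ).2])
        have eC : p kC = posC h τ := kd_ix_inj (m := m) (by rw [hkC, (kdC h τ).1])
          (by rw [e3, (kdC h τ).2])
        ext u
        simp only [mem_image, mem_univ, true_and, target, mem_insert, mem_singleton]
        constructor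
        · rintro ⟨k, rfl⟩
          rcases hall k with rfl | rfl | rfl
          · exact Or.inl eA
          · exact Or.inr (Or.inl eB)
          · exact Or.inr (Or.inr eC)
        · rintro (rfl | rfl | rfl)
          · exact ⟨kA, eA⟩
          · exact ⟨kB, eB⟩
          · exact ⟨kC, eC⟩)
    refine ⟨l, c, hl, fun k => ?_⟩
    rcases hall k with rfl | rfl | rfl
    · rw [hkA]; exact h1
    · rw [hkB]; exact h2
    · rw [hkC]; exact h3

/-- the input without a solution -/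
def x0 (m : ℕ) (a : ℕ × ℕ × ℕ × ℕ) : Fin n → ℤ := inp m e0 a

/-- the input with one solution -/
def x1 (m : ℕ) (τ : Fin m × Fin m) (a : ℕ × ℕ × ℕ × ℕ) : Fin n → ℤ :=
  inp m (e1 (τ.1 : ℕ) (τ.2 : ℕ)) a

/-- the argument of a polynomial -/
def arg (m : ℕ) (p : Fin 3 → Fin n) (α β δ ε : ℝ) (k : Fin 3) : ℝ :=
  (va (kd m (p k)) : ℝ) * α + (vb (kd m (p k)) : ℝ) * β + (ix m (p k) : ℝ) * δ +
    (e0 (kd m (p k)) (ix m (p k)) : ℝ) * ε

theorem arg_sign (p : Fin 3 → Fin n) (P : MvPolynomial (Fin 3) ℝ) : ∃ s : SignType,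
    ∀ᶠ v in Lf 4, SignType.sign (MvPolynomial.eval (arg m p (v 0) (v 1) (v 2) (v 3)) P) = s := by
  obtain ⟨s, -, hs⟩ := sign_ev 4 (MvPolynomial.bind₁ (fun k : Fin 3 =>
      MvPolynomial.C (va (kd m (p k)) : ℝ) * MvPolynomial.X 0 +
      MvPolynomial.C (vb (kd m (p k)) : ℝ) * MvPolynomial.X 1 +
      MvPolynomial.C (ix m (p k) : ℝ) * MvPolynomial.X 2 +
      MvPolynomial.C (e0 (kd m (p k)) (ix m (p k)) : ℝ) * MvPolynomial.X 3) P)
  refine ⟨s, hs.mono fun v hv => ?_⟩
  have e : MvPolynomial.eval (arg m p (v 0) (v 1) (v 2) (v 3)) P = MvPolynomial.eval v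
      (MvPolynomial.bind₁ (fun k : Fin 3 =>
      MvPolynomial.C (va (kd m (p k)) : ℝ) * MvPolynomial.X 0 +
      MvPolynomial.C (vb (kd m (p k)) : ℝ) * MvPolynomial.X 1 +
      MvPolynomial.C (ix m (p k) : ℝ) * MvPolynomial.X 2 +
      MvPolynomial.C (e0 (kd m (p k)) (ix m (p k)) : ℝ) * MvPolynomial.X 3) P) := by
    rw [← MvPolynomial.coe_aeval_eq_eval, ← MvPolynomial.coe_aeval_eq_eval]
    simp only [RingHom.coe_coe]
    rw [MvPolynomial.aeval_bind₁]
    congr 2
    funext k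
    simp [arg]
  rw [e]
  exact hv

/-- the two inputs are not distinguished by a test which does not see the solution -/
theorem sign_eq (h : 4 * m ≤ n + 1) (τ : Fin m × Fin m) (p : Fin 3 → Fin n)
    (hp : univ.image p ≠ target h τ) (P : MvPolynomial (Fin 3) ℝ) :
    ∀ᶠ a in L, SignType.sign (MvPolynomial.eval (fun k => (x0 m a (p k) : ℝ)) P) =
      SignType.sign (MvPolynomial.eval (fun k => (x1 m τ a (p k) : ℝ)) P) := by
  obtain ⟨l, c, hl, hc⟩ := fits_all h τ p hp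
  obtain ⟨s, hs⟩ := arg_sign (m := m) p P
  obtain ⟨R, hR⟩ : ∃ R : ℝ → ℝ → ℝ → ℝ → Prop, ∀ α β δ ε, R α β δ ε ↔
      SignType.sign (MvPolynomial.eval (arg m p α β δ ε) P) = s := ⟨_, fun _ _ _ _ => Iff.rfl⟩
  have hs' : ∀ᶠ v in Lf 4, R (v 0) (v 1) (v 2) (v 3) := hs.mono fun v hv => (hR _ _ _ _).2 hv
  have s0 := shift hs' (fun _ => 0) 1 one_pos
  have s1 := shift hs' c l hl
  filter_upwards [s0, s1] with a h0 h1
  rw [hR] at h0 h1
  have g0 : (fun k => (x0 m a (p k) : ℝ)) = arg m p ((a.2.2.2 : ℝ) + 0 * (a.1 : ℝ))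
      ((a.2.2.1 : ℝ) + 0 * (a.1 : ℝ)) ((a.2.1 : ℝ) + 0 * (a.1 : ℝ)) (1 * (a.1 : ℝ)) := by
    funext k
    simp only [x0, inp, arg]
    push_cast
    ring
  have g1 : (fun k => (x1 m τ a (p k) : ℝ)) = arg m p ((a.2.2.2 : ℝ) + c 0 * (a.1 : ℝ))
      ((a.2.2.1 : ℝ) + c 1 * (a.1 : ℝ)) ((a.2.1 : ℝ) + c 2 * (a.1 : ℝ)) (l * (a.1 : ℝ)) := by
    funext k
    have hk := hc k
    unfold Fits at hk
    simp only [x1, inp, arg]
    push_cast
    rw [hk]
    ring
  rw [g0, g1, h0, h1]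

/-- the tests which do not see exactly the places in `E` have the same outcomes for `x`, `y` -/
def Tree.Same (E : Finset (Fin n)) (x y : Fin n → ℤ) : Tree n → Prop
  | Tree.leaf _ => True
  | Tree.test p _ P child => (univ.image p ≠ E → signs p P x = signs p P y) ∧
      ∀ σ, (child σ).Same E x y
  | Tree.residues M child => (∀ u, (x u : ZMod (M + 1)) = (y u : ZMod (M + 1))) ∧
      ∀ σ, (child σ).Same E x y

theorem Tree.eval_eq {E : Finset (Fin n)} {x y : Fin n → ℤ} (F : Tree n) (h : F.Same E x y)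
    (hE : E ∉ F.triples x) (hc : E.card = 3) : F.eval x = F.eval y := by
  induction F with
  | leaf b => rfl
  | test p r P child ih =>
    simp only [Tree.Same] at h
    simp only [Tree.triples] at hE
    simp only [Tree.eval]
    by_cases hp : univ.image p = E
    · rw [if_pos (by rw [hp]; exact hc), hp] at hE
      exact absurd (mem_insert_self _ _) hE
    · rw [← h.1 hp]
      apply ih _ (h.2 _)
      split_ifs at hE with h1
      · exact fun h2 => hE (mem_insert_of_mem h2)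
      · exact hE
  | residues M child ih =>
    simp only [Tree.Same] at h
    simp only [Tree.triples] at hE
    simp only [Tree.eval]
    have e : (fun u => (y u : ZMod (M + 1))) = fun u => (x u : ZMod (M + 1)) :=
      funext fun u => (h.1 u).symm
    rw [e]
    exact ih _ (h.2 _) hE

/-- all moduli divide `N` -/
def Tree.Mod (N : ℕ) : Tree n → Prop
  | Tree.leaf _ => True
  | Tree.test _ _ _ child => ∀ σ, (child σ).Mod N
  | Tree.residues M child => (M + 1) ∣ N ∧ ∀ σ, (child σ).Mod N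

theorem Tree.Mod.mono {N N' : ℕ} (hN : N ∣ N') {F : Tree n} (h : F.Mod N) : F.Mod N' := by
  induction F with
  | leaf b => trivial
  | test p r P child ih => exact fun σ => ih σ (h σ)
  | residues M child ih => exact ⟨h.1.trans hN, fun σ => ih σ (h.2 σ)⟩

theorem exists_common {κ : Type} [Fintype κ] (F : κ → Tree n)
    (h : ∀ k, ∃ N, 0 < N ∧ (F k).Mod N) : ∃ N, 0 < N ∧ ∀ k, (F k).Mod N := by
  choose N h1 h2 using h
  exact ⟨∏ k, N k, prod_pos fun k _ => h1 k,
    fun k => (h2 k).mono (dvd_prod_of_mem N (mem_univ k))⟩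

theorem Tree.exists_mod (F : Tree n) : ∃ N, 0 < N ∧ F.Mod N := by
  induction F with
  | leaf b => exact ⟨1, one_pos, trivial⟩
  | test p r P child ih => exact exists_common child ih
  | residues M child ih =>
    obtain ⟨N, h1, h2⟩ := exists_common child ih
    exact ⟨(M + 1) * N, by positivity, dvd_mul_right _ _, fun σ => (h2 σ).mono (dvd_mul_left _ _)⟩

theorem inp_dvd (N : ℕ) (e : Fin 3 → ℤ → ℤ) (a : ℕ × ℕ × ℕ × ℕ) (u : Fin n) :
    (N : ℤ) ∣ inp m e (sc N a) u := by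
  refine ⟨inp m e a u, ?_⟩
  simp only [inp, sc]
  push_cast
  ring

theorem same_ev (h : 4 * m ≤ n + 1) (τ : Fin m × Fin m) (N : ℕ) (hN : 0 < N) (F : Tree n)
    (hF : F.Mod N) :
    ∀ᶠ a in L, F.Same (target h τ) (x0 m (sc N a)) (x1 m τ (sc N a)) := by
  induction F with
  | leaf b => exact Eventually.of_forall fun _ => trivial
  | test p r P child ih =>
    have h1 : ∀ᶠ a in L, ∀ σ, (child σ).Same (target h τ) (x0 m (sc N a)) (x1 m τ (sc N a)) := by
      rw [eventually_all]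
      exact fun σ => ih σ (hF σ)
    have h2 : ∀ᶠ a in L, univ.image p ≠ target h τ →
        signs p P (x0 m (sc N a)) = signs p P (x1 m τ (sc N a)) := by
      by_cases hp : univ.image p = target h τ
      · exact Eventually.of_forall fun _ h3 => absurd hp h3
      · have h3 : ∀ᶠ a in L, ∀ j, SignType.sign (MvPolynomial.eval
            (fun k => (x0 m (sc N a) (p k) : ℝ)) (P j)) =
            SignType.sign (MvPolynomial.eval (fun k => (x1 m τ (sc N a) (p k) : ℝ)) (P j)) := by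
          rw [eventually_all]
          intro j
          have h5 := sign_eq h τ p hp (P j)
          obtain ⟨R, hR⟩ : ∃ R : ℕ × ℕ × ℕ × ℕ → Prop, ∀ a, R a ↔
              SignType.sign (MvPolynomial.eval (fun k => (x0 m a (p k) : ℝ)) (P j)) =
              SignType.sign (MvPolynomial.eval (fun k => (x1 m τ a (p k) : ℝ)) (P j)) :=
            ⟨_, fun _ => Iff.rfl⟩
          have h6 : ∀ᶠ a in L, R a := h5.mono fun a ha => (hR a).2 ha
          exact (L_scale N hN h6).mono fun a ha => (hR _).1 ha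
        filter_upwards [h3] with a h4 _
        funext j
        exact h4 j
    filter_upwards [h1, h2] with a h3 h4
    exact ⟨h4, h3⟩
  | residues M child ih =>
    have h1 : ∀ᶠ a in L, ∀ σ, (child σ).Same (target h τ) (x0 m (sc N a)) (x1 m τ (sc N a)) := by
      rw [eventually_all]
      exact fun σ => ih σ (hF.2 σ)
    filter_upwards [h1] with a h2
    refine ⟨fun u => ?_, h2⟩
    have hd : ((M + 1 : ℕ) : ℤ) ∣ (N : ℤ) := by exact_mod_cast hF.1
    have z0 : ((x0 m (sc N a) u : ℤ) : ZMod (M + 1)) = 0 :=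
      (ZMod.intCast_zmod_eq_zero_iff_dvd _ _).2 (hd.trans (inp_dvd N _ a u))
    have z1 : ((x1 m τ (sc N a) u : ℤ) : ZMod (M + 1)) = 0 :=
      (ZMod.intCast_zmod_eq_zero_iff_dvd _ _).2 (hd.trans (inp_dvd N _ a u))
    rw [z0, z1]

/-- relations between the kinds -/
theorem kinds {k₁ k₂ k₃ : Fin 3} (h1 : va k₁ + va k₂ = va k₃) (h2 : vb k₁ + vb k₂ = vb k₃) :
    (k₁ = 0 ∧ k₂ = 1 ∧ k₃ = 2) ∨ (k₁ = 1 ∧ k₂ = 0 ∧ k₃ = 2) := by
  fin_cases k₁ <;> fin_cases k₂ <;> fin_cases k₃ <;> simp_all [va, vb]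

theorem kinds2 {k₁ k₂ : Fin 3} (h1 : va k₁ = va k₂) (h2 : vb k₁ = vb k₂) : k₁ = k₂ := by
  fin_cases k₁ <;> fin_cases k₂ <;> simp_all [va, vb]

theorem inj_ev (e : Fin 3 → ℤ → ℤ) : ∀ᶠ a in L, Function.Injective (inp (n := n) m e a) := by
  have h1 : ∀ᶠ a in L, ∀ u v : Fin n, u ≠ v → inp m e a u ≠ inp m e a v := by
    rw [eventually_all]
    intro u
    rw [eventually_all]
    intro v
    by_cases huv : u = v
    · exact Eventually.of_forall fun _ h => absurd huv h
    have := lin (va (kd m u) - va (kd m v)) (vb (kd m u) - vb (kd m v)) (ix m u - ix m v)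
      (e (kd m u) (ix m u) - e (kd m v) (ix m v)) (by
        rintro ⟨h1, h2, h3, -⟩
        exact huv (kd_ix_inj (m := m) (kinds2 (by linarith) (by linarith)) (by linarith)))
    filter_upwards [this] with a ha _ hxy
    apply ha
    simp only [inp] at hxy
    linarith
  filter_upwards [h1] with a ha u v huv
  by_contra hne
  exact ha u v hne huv

theorem sol_ev (e : Fin 3 → ℤ → ℤ) : ∀ᶠ a in L, ∀ u v w : Fin n, inp m e a u + inp m e a v =
    inp m e a w → ((kd m u = 0 ∧ kd m v = 1 ∧ kd m w = 2) ∨ (kd m u = 1 ∧ kd m v = 0 ∧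
      kd m w = 2)) ∧ ix m u + ix m v = ix m w ∧
      e (kd m u) (ix m u) + e (kd m v) (ix m v) = e (kd m w) (ix m w) := by
  rw [eventually_all]
  intro u
  rw [eventually_all]
  intro v
  rw [eventually_all]
  intro w
  by_cases h : va (kd m u) + va (kd m v) - va (kd m w) = 0 ∧ vb (kd m u) + vb (kd m v) -
    vb (kd m w) = 0 ∧ ix m u + ix m v - ix m w = 0 ∧
      e (kd m u) (ix m u) + e (kd m v) (ix m v) - e (kd m w) (ix m w) = 0
  · refine Eventually.of_forall fun a _ => ⟨kinds (by linarith [h.1]) (by linarith [h.2.1]), ?_, ?_⟩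
    · linarith [h.2.2.1]
    · linarith [h.2.2.2]
  · filter_upwards [lin _ _ _ _ h] with a ha hxy
    exfalso
    apply ha
    simp only [inp] at hxy
    linarith

theorem no_sol : ∀ᶠ a in L, ¬ HasSum3 (x0 (n := n) m a) := by
  filter_upwards [sol_ev (n := n) (m := m) e0] with a ha
  rintro ⟨u, v, w, -, -, -, h⟩
  obtain ⟨h1, h2, h3⟩ := ha u v w h
  rcases h1 with ⟨a1, a2, a3⟩ | ⟨a1, a2, a3⟩
  · rw [a1, a2, a3, ← h2] at h3
    simp only [e0, Matrix.cons_val_zero, Matrix.cons_val_one, Matrix.cons_val] at h3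
    nlinarith [sq_nonneg (ix m u - ix m v), sq_nonneg (ix m u + ix m v)]
  · rw [a1, a2, a3, ← h2] at h3
    simp only [e0, Matrix.cons_val_zero, Matrix.cons_val_one, Matrix.cons_val] at h3
    nlinarith [sq_nonneg (ix m u - ix m v), sq_nonneg (ix m u + ix m v)]

theorem has_sol (h : 4 * m ≤ n + 1) (τ : Fin m × Fin m) (a : ℕ × ℕ × ℕ × ℕ) :
    IsSol (x1 m τ a) (posA h τ) (posB h τ) (posC h τ) := by
  obtain ⟨a1, a2⟩ := kdA h τ
  obtain ⟨b1, b2⟩ := kdB h τ
  obtain ⟨c1, c2⟩ := kdC h τ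
  refine ⟨?_, ?_, ?_, ?_⟩
  · intro h1; rw [h1, b1] at a1; exact absurd a1 (by decide)
  · intro h1; rw [h1, c1] at a1; exact absurd a1 (by decide)
  · intro h1; rw [h1, c1] at b1; exact absurd b1 (by decide)
  · simp only [x1, inp, a1, a2, b1, b2, c1, c2, va, vb, e1, Matrix.cons_val_zero,
      Matrix.cons_val_one, Matrix.cons_val]
    ring

theorem one_sol (h : 4 * m ≤ n + 1) (τ : Fin m × Fin m) :
    ∀ᶠ a in L, AtMostOne (x1 (n := n) m τ a) := by
  filter_upwards [sol_ev (n := n) (m := m) (e1 (τ.1 : ℕ) (τ.2 : ℕ))] with a ha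
  have key : ∀ u v w : Fin n, IsSol (x1 m τ a) u v w → w = posC h τ ∧
      ((u = posA h τ ∧ v = posB h τ) ∨ (u = posB h τ ∧ v = posA h τ)) := by
    rintro u v w ⟨-, -, -, h0⟩
    obtain ⟨h1, h2, h3⟩ := ha u v w h0
    have aux : ∀ i j k i₀ j₀ : ℤ, i + j = k →
        4 * (i - i₀) ^ 2 + 4 * (j - j₀) ^ 2 = (k - i₀ - j₀) ^ 2 → i = i₀ ∧ j = j₀ ∧ k = i₀ + j₀ := by
      intro i j k i₀ j₀ hk hq
      rw [← hk] at hq
      have h5 : 2 * ((i - i₀) ^ 2 + (j - j₀) ^ 2) + ((i - i₀) - (j - j₀)) ^ 2 = 0 := by linarith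
      have h6 : (i - i₀) ^ 2 = 0 := by
        nlinarith [sq_nonneg (i - i₀), sq_nonneg (j - j₀), sq_nonneg ((i - i₀) - (j - j₀))]
      have h7 : (j - j₀) ^ 2 = 0 := by
        nlinarith [sq_nonneg (i - i₀), sq_nonneg (j - j₀), sq_nonneg ((i - i₀) - (j - j₀))]
      have h8 : i - i₀ = 0 := by simpa using h6
      have h9 : j - j₀ = 0 := by simpa using h7
      exact ⟨by linarith, by linarith, by linarith⟩
    rcases h1 with ⟨a1, a2, a3⟩ | ⟨a1, a2, a3⟩
    · rw [a1, a2, a3] at h3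
      simp only [e1, Matrix.cons_val_zero, Matrix.cons_val_one, Matrix.cons_val] at h3
      obtain ⟨h4, h5, h6⟩ := aux _ _ _ _ _ h2 h3
      exact ⟨kd_ix_inj (m := m) (by rw [a3, (kdC h τ).1]) (by rw [h6, (kdC h τ).2]),
        Or.inl ⟨kd_ix_inj (m := m) (by rw [a1, (kdA h τ).1]) (by rw [h4, (kdA h τ).2]),
          kd_ix_inj (m := m) (by rw [a2, (kdB h τ).1]) (by rw [h5, (kdB h τ).2])⟩⟩
    · rw [a1, a2, a3] at h3
      simp only [e1, Matrix.cons_val_zero, Matrix.cons_val_one, Matrix.cons_val] at h3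
      obtain ⟨h4, h5, h6⟩ := aux (ix m v) (ix m u) (ix m w) (τ.1 : ℕ) (τ.2 : ℕ) (by linarith)
        (by linarith)
      exact ⟨kd_ix_inj (m := m) (by rw [a3, (kdC h τ).1]) (by rw [h6, (kdC h τ).2]),
        Or.inr ⟨kd_ix_inj (m := m) (by rw [a1, (kdB h τ).1]) (by rw [h5, (kdB h τ).2]),
          kd_ix_inj (m := m) (by rw [a2, (kdA h τ).1]) (by rw [h4, (kdA h τ).2])⟩⟩
  intro i j k i' j' k' h1 h2
  obtain ⟨b1, b2⟩ := key i j k h1
  obtain ⟨b3, b4⟩ := key i' j' k' h2
  refine ⟨b1.trans b3.symm, ?_⟩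
  rcases b2 with ⟨b2, b2'⟩ | ⟨b2, b2'⟩ <;> rcases b4 with ⟨b4, b4'⟩ | ⟨b4, b4'⟩
  · exact Or.inl ⟨b2.trans b4.symm, b2'.trans b4'.symm⟩
  · exact Or.inr ⟨b2.trans b4'.symm, b2'.trans b4.symm⟩
  · exact Or.inr ⟨b2.trans b4'.symm, b2'.trans b4.symm⟩
  · exact Or.inl ⟨b2.trans b4.symm, b2'.trans b4'.symm⟩

theorem target_card (h : 4 * m ≤ n + 1) (τ : Fin m × Fin m) : (target h τ).card = 3 := by
  obtain ⟨a1, -⟩ := kdA h τ
  obtain ⟨b1, -⟩ := kdB h τ
  obtain ⟨c1, -⟩ := kdC h τ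
  apply card_eq_three.2
  refine ⟨_, _, _, ?_, ?_, ?_, rfl⟩
  · intro h1; rw [h1, b1] at a1; exact absurd a1 (by decide)
  · intro h1; rw [h1, c1] at a1; exact absurd a1 (by decide)
  · intro h1; rw [h1, c1] at b1; exact absurd b1 (by decide)

/-- the hard inputs -/
theorem hard (h : 4 * m ≤ n + 1) {Ω : Type} [Fintype Ω] (F : Ω → Tree n) :
    ∃ (x : Fin n → ℤ) (y : Fin m × Fin m → Fin n → ℤ), Function.Injective x ∧ ¬ HasSum3 x ∧
      ∀ τ, Function.Injective (y τ) ∧ HasSum3 (y τ) ∧ AtMostOne (y τ) ∧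
        ∀ ω, target h τ ∉ (F ω).triples x → (F ω).eval x = (F ω).eval (y τ) := by
  obtain ⟨N, hN, hF⟩ := exists_common F fun ω => (F ω).exists_mod
  have h1 : ∀ᶠ a in L, ∀ τ : Fin m × Fin m, ∀ ω,
      (F ω).Same (target h τ) (x0 m (sc N a)) (x1 m τ (sc N a)) := by
    rw [eventually_all]
    intro τ
    rw [eventually_all]
    exact fun ω => same_ev h τ N hN (F ω) (hF ω)
  have h2 : ∀ᶠ a in L, ∀ τ : Fin m × Fin m, Function.Injective (x1 (n := n) m τ a) ∧
      AtMostOne (x1 (n := n) m τ a) := by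
    rw [eventually_all]
    exact fun τ => (inj_ev _).and (one_sol h τ)
  obtain ⟨a, a1, a2⟩ := L_exists (h1.and (L_scale N hN (h2.and
    ((inj_ev (n := n) (m := m) e0).and (no_sol (n := n) (m := m))))))
  obtain ⟨a2, a3, a4⟩ := a2
  exact ⟨x0 m (sc N a), fun τ => x1 m τ (sc N a), a3, a4, fun τ => ⟨(a2 τ).1,
    ⟨_, _, _, has_sol h τ (sc N a)⟩, (a2 τ).2,
    fun ω hω => (F ω).eval_eq (a1 τ ω) hω (target_card h τ)⟩⟩

theorem half (hn : 2 ≤ n) (hm : m = (n + 1) / 4) : ((n : ℝ) - 2) ^ 2 ≤ 16 * (m : ℝ) ^ 2 := by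
  have h1 : n ≤ 4 * m + 2 := by omega
  have h2 : (n : ℝ) ≤ 4 * m + 2 := by exact_mod_cast h1
  have h3 : (2 : ℝ) ≤ n := by exact_mod_cast hn
  nlinarith

open Classical in
theorem random_bound (hn : 2 ≤ n) {Ω : Type} [Fintype Ω] (μ : Ω → ℝ) (hμ : ∀ ω, 0 ≤ μ ω)
    (hμ1 : ∑ ω, μ ω = 1) (F : Ω → Tree n) (η T : ℝ) (hη : η ≤ 1 / 2)
    (herr : ∀ x : Fin n → ℤ, Function.Injective x → AtMostOne x →
      ∑ ω ∈ univ.filter (fun ω => (F ω).eval x ≠ decide (HasSum3 x)), μ ω ≤ η)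
    (hcost : ∀ x : Fin n → ℤ, Function.Injective x → ¬ HasSum3 x →
      ∑ ω, μ ω * ((F ω).triples x).card ≤ T) :
    (1 - 2 * η) * ((n : ℝ) - 2) ^ 2 ≤ 16 * T := by
  obtain ⟨m, hm⟩ : ∃ m, m = (n + 1) / 4 := ⟨_, rfl⟩
  have h : 4 * m ≤ n + 1 := by omega
  obtain ⟨x, y, hx, hx2, hy⟩ := hard h F
  have hx3 : AtMostOne x := by
    intro i j k i' j' k' h1
    exact absurd ⟨i, j, k, h1⟩ hx2
  -- every triple is seen with probability at least `1 - 2 η`
  have h1 : ∀ τ, 1 - 2 * η ≤ ∑ ω, (if target h τ ∈ (F ω).triples x then μ ω else 0) := by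
    intro τ
    obtain ⟨y1, y2, y3, y4⟩ := hy τ
    have e1 := herr x hx hx3
    have e2 := herr (y τ) y1 y3
    rw [sum_filter] at e1 e2
    have e3 : ∀ ω, μ ω ≤ (if target h τ ∈ (F ω).triples x then μ ω else 0) +
        (if (F ω).eval x ≠ decide (HasSum3 x) then μ ω else 0) +
        (if (F ω).eval (y τ) ≠ decide (HasSum3 (y τ)) then μ ω else 0) := by
      intro ω
      have hω := hμ ω
      by_cases h3 : target h τ ∈ (F ω).triples x
      · rw [if_pos h3]
        have : 0 ≤ (if (F ω).eval x ≠ decide (HasSum3 x) then μ ω else 0) := by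
          split_ifs <;> first | exact hω | exact le_rfl
        have : 0 ≤ (if (F ω).eval (y τ) ≠ decide (HasSum3 (y τ)) then μ ω else 0) := by
          split_ifs <;> first | exact hω | exact le_rfl
        linarith
      · have h4 := y4 ω h3
        rw [if_neg h3, ← h4]
        have d1 : decide (HasSum3 x) = false := by simp [hx2]
        have d2 : decide (HasSum3 (y τ)) = true := by simp [y2]
        rw [d1, d2]
        cases (F ω).eval x <;> simp
    have e4 := sum_le_sum fun ω (_ : ω ∈ (univ : Finset Ω)) => e3 ω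
    rw [sum_add_distrib, sum_add_distrib, hμ1] at e4
    linarith
  have h2 := sum_le_sum fun τ (_ : τ ∈ (univ : Finset (Fin m × Fin m))) => h1 τ
  rw [sum_const, card_univ, Fintype.card_prod, Fintype.card_fin, nsmul_eq_mul, sum_comm] at h2
  have h3 : ∀ ω, ∑ τ, (if target h τ ∈ (F ω).triples x then μ ω else 0) ≤
      μ ω * ((F ω).triples x).card := by
    intro ω
    rw [← sum_filter, sum_const, nsmul_eq_mul, mul_comm]
    apply mul_le_mul_of_nonneg_left _ (hμ ω)
    have h4 : (univ.filter (fun τ : Fin m × Fin m => target h τ ∈ (F ω).triples x)).card ≤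
        ((F ω).triples x).card := by
      apply card_le_card_of_injOn (fun τ => target h τ)
      · intro τ hτ
        simpa using hτ
      · intro τ _ τ' _ he
        exact target_inj h he
    exact_mod_cast h4
  have h4 := (h2.trans (sum_le_sum fun ω _ => h3 ω)).trans (hcost x hx hx2)
  have h5 := half hn hm
  push_cast at h4
  have h6 : 0 ≤ 1 - 2 * η := by linarith
  have h7 := mul_le_mul_of_nonneg_left h5 h6
  nlinarith

/-- nondeterministic computations -/
theorem cert_bound (hn : 2 ≤ n) {Ω : Type} [Fintype Ω] (F : Ω → Tree n)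
    (hF : ∀ x : Fin n → ℤ, Function.Injective x → AtMostOne x →
      ((∃ ω, (F ω).eval x = false) ↔ ¬ HasSum3 x)) :
    ∃ x : Fin n → ℤ, Function.Injective x ∧ ¬ HasSum3 x ∧ ∀ ω, (F ω).eval x = false →
      ((n : ℝ) - 2) ^ 2 ≤ 16 * ((F ω).triples x).card := by
  obtain ⟨m, hm⟩ : ∃ m, m = (n + 1) / 4 := ⟨_, rfl⟩
  have h : 4 * m ≤ n + 1 := by omega
  obtain ⟨x, y, hx, hx2, hy⟩ := hard h F
  refine ⟨x, hx, hx2, fun ω hω => ?_⟩
  have h1 : ∀ τ, target h τ ∈ (F ω).triples x := by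
    intro τ
    obtain ⟨y1, y2, y3, y4⟩ := hy τ
    by_contra h3
    have h4 := y4 ω h3
    rw [hω] at h4
    exact ((hF (y τ) y1 y3).1 ⟨ω, h4.symm⟩) y2
  have h2 : m * m ≤ ((F ω).triples x).card := by
    have h4 : (univ : Finset (Fin m × Fin m)).card ≤ ((F ω).triples x).card := by
      apply card_le_card_of_injOn (fun τ => target h τ)
      · intro τ _
        exact h1 τ
      · intro τ _ τ' _ he
        exact target_inj h he
    rwa [card_univ, Fintype.card_prod, Fintype.card_fin] at h4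
  have h5 := half hn hm
  have h6 : ((m : ℝ)) * m ≤ ((F ω).triples x).card := by exact_mod_cast h2
  nlinarith

end Pool.Agent.K4H88.Ter
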